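import Mathlib

set_option autoImplicit false

open Topology

namespace Pool.Agent.Helper77.KOneDefs

universe u v

section General
variable (R : Type u) [Ring R] [TopologicalSpace R] [IsTopologicalRing R]

/-- `inv_0(R)`: the connected component of `1` in the group `inv(R)` of invertible elements. -/
def invZero : Subgroup Rˣ := Subgroup.connectedComponentOfOne Rˣ

instance invZero_normal : (invZero R).Normal := by
  refine ⟨fun u hu g => ?_⟩
  have hc : Continuous (fun x : Rˣ => g * x * g⁻¹) := by fun_prop
  have h := hc.image_connectedComponent_subset (1 : Rˣ)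
  have h1 : g * u * g⁻¹ ∈ connectedComponent (g * 1 * g⁻¹) := h ⟨u, hu, rfl⟩
  rw [mul_one, mul_inv_cancel] at h1
  exact h1

/-- The group `inv(R)/inv_0(R)`. -/
def InvQuot : Type u := Rˣ ⧸ invZero R

instance invQuotGroup : Group (InvQuot R) := QuotientGroup.Quotient.group (invZero R)

end General

lemma units_map_mem {R S : Type u} [Ring R] [TopologicalSpace R] [IsTopologicalRing R]
    [Ring S] [TopologicalSpace S] [IsTopologicalRing S] (φ : R →* S) (hφ : Continuous φ) (u : Rˣ)
    (hu : u ∈ invZero R) : Units.map φ u ∈ invZero S := by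
  have hc : Continuous (Units.map φ) := Continuous.units_map φ hφ
  have h := hc.image_connectedComponent_subset (1 : Rˣ)
  have h1 : Units.map φ u ∈ connectedComponent (Units.map φ 1) := h ⟨u, hu, rfl⟩
  rw [map_one] at h1
  exact h1

/-- The homomorphism `inv(R)/inv_0(R) → inv(S)/inv_0(S)` induced by a continuous multiplicative map. -/
def invQuotMap {R S : Type u} [Ring R] [TopologicalSpace R] [IsTopologicalRing R]
    [Ring S] [TopologicalSpace S] [IsTopologicalRing S] (φ : R →* S) (hφ : Continuous φ) :
    InvQuot R →* InvQuot S :=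
  QuotientGroup.map (invZero R) (invZero S) (Units.map φ)
    (units_map_mem φ hφ)

section Pad
variable {A : Type u} [Ring A]

/-- `x ↦ diag(x,1)` from `m × m` to `n × n` matrices (used for `m ≤ n`). -/
def padFun (m n : ℕ) (X : Matrix (Fin m) (Fin m) A) : Matrix (Fin n) (Fin n) A :=
  fun i j => if h : (i : ℕ) < m ∧ (j : ℕ) < m then X ⟨i, h.1⟩ ⟨j, h.2⟩ else if i = j then 1 else 0

/-- the equivalence used in the proofs -/
def eqv {m n : ℕ} (h : m ≤ n) : Fin m ⊕ Fin (n - m) ≃ Fin n :=
  finSumFinEquiv.trans (finCongr (by omega))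

lemma padFun_eq {m n : ℕ} (h : m ≤ n) (X : Matrix (Fin m) (Fin m) A) :
    padFun m n X = (Matrix.fromBlocks X 0 0 1).submatrix (eqv h).symm (eqv h).symm := by
  ext i j
  obtain ⟨i, rfl⟩ := (eqv h).surjective i
  obtain ⟨j, rfl⟩ := (eqv h).surjective j
  rw [Matrix.submatrix_apply, Equiv.symm_apply_apply, Equiv.symm_apply_apply]
  rcases i with i | i <;> rcases j with j | j
  · simp [padFun, eqv]
  · simp [padFun, eqv, Fin.ext_iff]
    omega
  · simp [padFun, eqv, Fin.ext_iff]
    omega
  · simp [padFun, eqv, Fin.ext_iff, Matrix.one_apply]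

/-- `x ↦ diag(x,1)` as a multiplicative map. -/
def pad {m n : ℕ} (h : m ≤ n) : Matrix (Fin m) (Fin m) A →* Matrix (Fin n) (Fin n) A where
  toFun := padFun m n
  map_one' := by
    rw [padFun_eq h, Matrix.fromBlocks_one, Matrix.submatrix_one_equiv]
  map_mul' X Y := by
    rw [padFun_eq h, padFun_eq h, padFun_eq h, Matrix.submatrix_mul_equiv,
      Matrix.fromBlocks_multiply]
    simp

lemma pad_continuous [TopologicalSpace A] {m n : ℕ} (h : m ≤ n) :
    Continuous (pad (A := A) h) := by
  refine continuous_matrix fun i j => ?_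
  change Continuous fun X : Matrix (Fin m) (Fin m) A => padFun m n X i j
  unfold padFun
  split_ifs
  · fun_prop
  · fun_prop
  · fun_prop

/-- The inclusion `A = M_1(A)`. -/
def oneByOne : A →* Matrix (Fin 1) (Fin 1) A where
  toFun a := fun _ _ => a
  map_one' := by
    ext i j
    rw [Subsingleton.elim i j, Matrix.one_apply_eq]
  map_mul' a b := by ext i j; simp [Matrix.mul_apply]

lemma oneByOne_continuous [TopologicalSpace A] : Continuous (oneByOne (A := A)) :=
  continuous_matrix fun _ _ => continuous_id

end Pad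

section K
variable (A : Type u) [Ring A] [TopologicalSpace A] [IsTopologicalRing A]

/-- The group `inv(M_{n+1}(A))/inv_0(M_{n+1}(A))`. -/
def Stage (n : ℕ) : Type u := InvQuot (Matrix (Fin (n + 1)) (Fin (n + 1)) A)

instance stageGroup (n : ℕ) : Group (Stage A n) :=
  invQuotGroup (Matrix (Fin (n + 1)) (Fin (n + 1)) A)

/-- The transition homomorphism, induced by `x ↦ diag(x,1)`. -/
def trans (m n : ℕ) (h : m ≤ n) : Stage A m →* Stage A n :=
  invQuotMap (pad (Nat.succ_le_succ h)) (pad_continuous _)

/-- `K` with the homomorphisms `j n` is `K_1(A)`, the direct limit of the groups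
`inv(M_{n+1}(A))/inv_0(M_{n+1}(A))` under `x ↦ diag(x,1)`: the `j n` are compatible with the
transition maps, every element of `K` comes from some stage, and an element of a stage which goes
to `1` in `K` goes to `1` in some later stage. -/
structure IsKOne (K : Type v) [Group K] (j : ∀ n : ℕ, Stage A n →* K) : Prop where
  compat : ∀ (m n : ℕ) (h : m ≤ n) (x : Stage A m), j n (trans A m n h x) = j m x
  surj : ∀ y : K, ∃ (n : ℕ) (x : Stage A n), j n x = y
  ker : ∀ (n : ℕ) (x : Stage A n), j n x = 1 → ∃ (m : ℕ) (h : n ≤ m), trans A n m h x = 1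

end K

/-- The natural map `inv(A)/inv_0(A) → K_1(A)`, induced by the inclusion `A = M_1(A)`. -/
def natMap (A : Type u) [Ring A] [TopologicalSpace A] [IsTopologicalRing A] {K : Type v} [Group K]
    (j : ∀ n : ℕ, Stage A n →* K) : InvQuot A →* K :=
  (j 0).comp (invQuotMap oneByOne oneByOne_continuous)

/-- A unital Banach algebra `A` is purely infinite simple: `A ≠ ℂ` and for every nonzero `a` there
are `b, c` with `bac = 1`. -/
structure PurelyInfiniteSimple (A : Type u) [NormedRing A] [NormedAlgebra ℂ A] : Prop where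
  ne_complex : ¬ Function.Bijective (algebraMap ℂ A)
  exists_mul : ∀ a : A, a ≠ 0 → ∃ b c : A, b * a * c = 1

end Pool.Agent.Helper77.KOneDefs
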