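import Pool.Agent.Helper77.Ins.KOneDefs
import Pool.Agent.S06281

set_option autoImplicit false

open Topology

namespace Pool.Agent.Helper77.KOneDefs

universe u v

section Pad2
variable {A : Type u} [Ring A]

lemma pad_pad {k m n : ℕ} (h : k ≤ m) (h' : m ≤ n) (X : Matrix (Fin k) (Fin k) A) :
    pad h' (pad h X) = pad (h.trans h') X := by
  ext i j
  change padFun m n (padFun k m X) i j = padFun k n X i j
  unfold padFun
  by_cases hi : (i : ℕ) < k <;> by_cases hj : (j : ℕ) < k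
  · have hi' : (i : ℕ) < m := by omega
    have hj' : (j : ℕ) < m := by omega
    simp [hi, hj, hi', hj']
  · by_cases hi' : (i : ℕ) < m <;> by_cases hj' : (j : ℕ) < m <;> simp [hi, hj, hi', hj', Fin.ext_iff]
  · by_cases hi' : (i : ℕ) < m <;> by_cases hj' : (j : ℕ) < m <;> simp [hi, hj, hi', hj', Fin.ext_iff]
  · by_cases hi' : (i : ℕ) < m <;> by_cases hj' : (j : ℕ) < m <;> simp [hi, hj, hi', hj', Fin.ext_iff]

lemma pad_self {m : ℕ} (X : Matrix (Fin m) (Fin m) A) : pad (le_refl m) X = X := by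
  ext i j
  change padFun m m X i j = X i j
  simp [padFun]

end Pad2

section Cls

/-- the quotient homomorphism -/
def cls (R : Type u) [Ring R] [TopologicalSpace R] [IsTopologicalRing R] : Rˣ →* InvQuot R :=
  QuotientGroup.mk' (invZero R)

lemma cls_surjective (R : Type u) [Ring R] [TopologicalSpace R] [IsTopologicalRing R] :
    Function.Surjective (cls R) := QuotientGroup.mk'_surjective (invZero R)

lemma cls_eq_one {R : Type u} [Ring R] [TopologicalSpace R] [IsTopologicalRing R] (u : Rˣ) :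
    cls R u = 1 ↔ u ∈ connectedComponent (1 : Rˣ) :=
  QuotientGroup.eq_one_iff (N := invZero R) u

lemma invQuotMap_cls {R S : Type u} [Ring R] [TopologicalSpace R] [IsTopologicalRing R]
    [Ring S] [TopologicalSpace S] [IsTopologicalRing S] (φ : R →* S) (hφ : Continuous φ) (u : Rˣ) :
    invQuotMap φ hφ (cls R u) = cls S (Units.map φ u) := rfl

end Cls

section Dir
variable (A : Type u) [Ring A] [TopologicalSpace A] [IsTopologicalRing A]

/-- the quotient homomorphism at a stage -/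
def scls (n : ℕ) : (Matrix (Fin (n + 1)) (Fin (n + 1)) A)ˣ →* Stage A n :=
  cls (Matrix (Fin (n + 1)) (Fin (n + 1)) A)

lemma scls_surjective (n : ℕ) : Function.Surjective (scls A n) :=
  cls_surjective (Matrix (Fin (n + 1)) (Fin (n + 1)) A)

lemma scls_eq_one (n : ℕ) (u : (Matrix (Fin (n + 1)) (Fin (n + 1)) A)ˣ) :
    scls A n u = 1 ↔ u ∈ connectedComponent (1 : (Matrix (Fin (n + 1)) (Fin (n + 1)) A)ˣ) :=
  cls_eq_one u

lemma trans_scls (m n : ℕ) (h : m ≤ n) (U : (Matrix (Fin (m + 1)) (Fin (m + 1)) A)ˣ) :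
    trans A m n h (scls A m U) = scls A n (Units.map (pad (Nat.succ_le_succ h)) U) := rfl

instance directedSystem : DirectedSystem (Stage A) (fun m n h => trans A m n h) where
  map_self := by
    intro n x
    obtain ⟨u, rfl⟩ := scls_surjective A n x
    rw [trans_scls]
    congr 1
    ext1
    exact pad_self _
  map_map := by
    intro k j i hij hjk x
    obtain ⟨u, rfl⟩ := scls_surjective A _ x
    rw [trans_scls, trans_scls, trans_scls]
    congr 1
    ext1
    exact pad_pad _ _ _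

end Dir

section Core
open Pool.Agent.S06281

/-- the two elementary facts, in every universe -/
theorem core_facts (A : Type u) [NormedRing A] [NormedAlgebra ℂ A]
    (hnd : ∃ x : A, x ≠ 0 ∧ ¬ IsUnit x)
    (hpi : ∀ x : A, x ≠ 0 → ∃ a b : A, a * x * b = 1) :
    ((∀ (m : ℕ) (a : Aˣ) (U : (Matrix (Fin (m+1)) (Fin (m+1)) A)ˣ),
        (U : Matrix (Fin (m+1)) (Fin (m+1)) A) =
          Matrix.diagonal (fun i : Fin (m+1) => if i = 0 then (a : A) else 1) →
        U ∈ connectedComponent (1 : (Matrix (Fin (m+1)) (Fin (m+1)) A)ˣ) →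
        a ∈ connectedComponent (1 : Aˣ)) ∧
    (∀ (n : ℕ) (U : (Matrix (Fin (n+1)) (Fin (n+1)) A)ˣ),
      ∃ (a : Aˣ)
        (V W : (Matrix (Fin (n+1) ⊕ Fin 1) (Fin (n+1) ⊕ Fin 1) A)ˣ),
        (V : Matrix (Fin (n+1) ⊕ Fin 1) (Fin (n+1) ⊕ Fin 1) A) =
          Matrix.fromBlocks (U : Matrix (Fin (n+1)) (Fin (n+1)) A) 0 0 1 ∧
        (W : Matrix (Fin (n+1) ⊕ Fin 1) (Fin (n+1) ⊕ Fin 1) A) =
          Matrix.diagonal (fun i : Fin (n+1) ⊕ Fin 1 =>
            if i = Sum.inl 0 then (a : A) else 1) ∧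
        W ∈ connectedComponent V)) := by
  obtain ⟨s, t, hst⟩ := exists_family hnd hpi
  have hcont : ∀ n : ℕ, Continuous (emb n s t hst) := by
    intro n
    show Continuous (fun X : Matrix (Fin n) (Fin n) A =>
      (rowS n s * X * colT n t + (1 - rowS n s * colT n t) : Matrix (Fin 1) (Fin 1) A) 0 0)
    fun_prop
  refine ⟨?_, ?_⟩
  · intro m a U hU hUc
    have hθN : Units.map (emb (m+1) s t hst) U ∈ N A :=
      map_mem (emb (m+1) s t hst) (hcont (m+1)) U hUc
    have hθ : ((Units.map (emb (m+1) s t hst) U : Aˣ) : A) = s 0 * a * t 0 + (1 - s 0 * t 0) := by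
      rw [Units.coe_map]
      show emb (m+1) s t hst (U : Matrix (Fin (m+1)) (Fin (m+1)) A) = _
      rw [hU, emb_diag]
    have h00 : t 0 * s 0 = 1 := by rw [hst]; simp
    have hne : s 0 * t 0 ≠ 1 := by
      intro h
      have h1 : s 1 = 0 := by
        calc s 1 = (s 0 * t 0) * s 1 := by rw [h, one_mul]
          _ = s 0 * (t 0 * s 1) := by rw [mul_assoc]
          _ = 0 := by rw [hst]; simp
      obtain ⟨x, hx, _⟩ := hnd
      have h11 : t 1 * s 1 = 1 := by rw [hst]; simp
      rw [h1, mul_zero] at h11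
      apply hx
      rw [← one_mul x, ← h11, zero_mul]
    exact core hpi (s 0) (t 0) h00 hne a _ hθ hθN
  · intro n U
    set S : Matrix (Fin 1) (Fin (n+1)) A := rowS (n+1) s with hS
    set T : Matrix (Fin (n+1)) (Fin 1) A := colT (n+1) t with hT
    have hTS : T * S = 1 := colT_mul_rowS (n+1) s t hst
    set a : Aˣ := Units.map (emb (n+1) s t hst) U with ha
    have haval : (a : A) = (S * (U : Matrix (Fin (n+1)) (Fin (n+1)) A) * T +
        (1 - S * T) : Matrix (Fin 1) (Fin 1) A) 0 0 := rfl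
    have haval' : (S * (U : Matrix (Fin (n+1)) (Fin (n+1)) A) * T +
        (1 - S * T) : Matrix (Fin 1) (Fin 1) A) = Matrix.diagonal (fun _ => (a : A)) := by
      ext i j
      fin_cases i; fin_cases j
      simp only [Fin.zero_eta, Matrix.diagonal_apply_eq]
      exact haval.symm
    let R := Matrix (Fin (n+1) ⊕ Fin 1) (Fin (n+1) ⊕ Fin 1) A
    -- the three units
    let V : Rˣ :=
      ⟨Matrix.fromBlocks (U : Matrix (Fin (n+1)) (Fin (n+1)) A) 0 0 1,
        Matrix.fromBlocks ((U⁻¹ : (Matrix (Fin (n+1)) (Fin (n+1)) A)ˣ) :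
          Matrix (Fin (n+1)) (Fin (n+1)) A) 0 0 1,
        by rw [Matrix.fromBlocks_multiply]; simp,
        by rw [Matrix.fromBlocks_multiply]; simp⟩
    let W' : Rˣ :=
      ⟨Matrix.fromBlocks (1 : Matrix (Fin (n+1)) (Fin (n+1)) A) 0 0
          (Matrix.diagonal (fun _ : Fin 1 => (a : A))),
        Matrix.fromBlocks (1 : Matrix (Fin (n+1)) (Fin (n+1)) A) 0 0
          (Matrix.diagonal (fun _ : Fin 1 => ((a⁻¹ : Aˣ) : A))),
        by rw [Matrix.fromBlocks_multiply]; simp,
        by rw [Matrix.fromBlocks_multiply]; simp⟩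
    let W : Rˣ :=
      ⟨Matrix.diagonal (fun i : Fin (n+1) ⊕ Fin 1 => if i = Sum.inl 0 then (a : A) else 1),
        Matrix.diagonal (fun i : Fin (n+1) ⊕ Fin 1 =>
          if i = Sum.inl 0 then ((a⁻¹ : Aˣ) : A) else 1),
        by
          rw [Matrix.diagonal_mul_diagonal, ← Matrix.diagonal_one]
          congr 1; funext i; split_ifs <;> simp,
        by
          rw [Matrix.diagonal_mul_diagonal, ← Matrix.diagonal_one]
          congr 1; funext i; split_ifs <;> simp⟩
    refine ⟨a, V, W, rfl, rfl, ?_⟩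
    have h1 : W' * V⁻¹ ∈ N R := by
      refine rot_component (R := R) (Matrix.fromBlocks 0 0 S 0) (Matrix.fromBlocks 0 T 0 0)
        ?_ ?_ ?_ ?_ V W' ?_ ?_
      · rw [Matrix.fromBlocks_multiply]; simp
      · rw [Matrix.fromBlocks_multiply]; simp
      · rw [Matrix.fromBlocks_multiply, Matrix.fromBlocks_multiply]
        simp [Matrix.mul_assoc, hTS]
      · rw [Matrix.fromBlocks_multiply, Matrix.fromBlocks_multiply]
        simp [hTS]
      · exact blocks_eq1 S T U hTS
      · have h5 := blocks_eq2 S T (U : Matrix (Fin (n+1)) (Fin (n+1)) A)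
        rw [haval'] at h5
        exact h5
    have h2 : W * W'⁻¹ ∈ N R := by
      refine rot_component (R := R) (Matrix.single (Sum.inl 0) (Sum.inr 0) (1 : A))
        (Matrix.single (Sum.inr 0) (Sum.inl 0) (1 : A)) ?_ ?_ ?_ ?_ W' W ?_ ?_
      · exact Matrix.single_mul_single_of_ne _ _ _ _ (by simp) _
      · exact Matrix.single_mul_single_of_ne _ _ _ _ (by simp) _
      · exact single_cycle _ _
      · exact single_cycle _ _
      · exact diag_eq1 (a : A)
      · exact diag_eq2 (a : A)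
    have h3 : W * V⁻¹ ∈ N R := by
      have : W * V⁻¹ = (W * W'⁻¹) * (W' * V⁻¹) := by group
      rw [this]
      exact (N R).mul_mem h2 h1
    -- right translation by V
    have hc : Continuous (fun x : Rˣ => x * V) := by fun_prop
    have h := hc.image_connectedComponent_subset (1 : Rˣ)
    have h4 : W * V⁻¹ * V ∈ connectedComponent (1 * V) := h ⟨W * V⁻¹, h3, rfl⟩
    rw [one_mul, inv_mul_cancel_right] at h4
    exact h4

end Core

lemma cls_eq_of_mem {R : Type u} [Ring R] [TopologicalSpace R] [IsTopologicalRing R] (V W : Rˣ)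
    (h : W ∈ connectedComponent V) : cls R V = cls R W := by
  have hc : Continuous (fun x : Rˣ => V⁻¹ * x) := by fun_prop
  have h1 : V⁻¹ * W ∈ connectedComponent (V⁻¹ * V) :=
    hc.image_connectedComponent_subset V ⟨W, h, rfl⟩
  rw [inv_mul_cancel] at h1
  have h2 := (cls_eq_one (V⁻¹ * W)).2 h1
  rw [map_mul, map_inv, inv_mul_eq_one] at h2
  exact h2

lemma scls_eq_of_mem (A : Type u) [Ring A] [TopologicalSpace A] [IsTopologicalRing A] (n : ℕ)
    (V W : (Matrix (Fin (n + 1)) (Fin (n + 1)) A)ˣ) (h : W ∈ connectedComponent V) :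
    scls A n V = scls A n W := cls_eq_of_mem V W h

lemma natMap_cls (A : Type u) [Ring A] [TopologicalSpace A] [IsTopologicalRing A] {K : Type v}
    [Group K] (j : ∀ n : ℕ, Stage A n →* K) (a : Aˣ) :
    natMap A j (cls A a) = j 0 (scls A 0 (Units.map oneByOne a)) := rfl

lemma pad_oneByOne {A : Type u} [Ring A] (n : ℕ) (a : A) :
    pad (Nat.succ_le_succ (Nat.zero_le n)) (oneByOne a) =
      Matrix.diagonal (fun i : Fin (n + 1) => if i = 0 then a else 1) := by
  ext i j
  change padFun 1 (n + 1) (fun _ _ => a) i j = _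
  unfold padFun
  rw [Matrix.diagonal_apply]
  by_cases hi : i = 0 <;> by_cases hj : j = 0
  · subst hi; subst hj; simp
  · have : (j : ℕ) ≠ 0 := fun h => hj (Fin.ext h)
    have h1 : ¬ ((i : ℕ) < 1 ∧ (j : ℕ) < 1) := by omega
    have h2 : i ≠ j := by rw [hi]; exact fun h => hj h.symm
    rw [dif_neg h1, if_neg h2, if_neg h2]
  · have : (i : ℕ) ≠ 0 := fun h => hi (Fin.ext h)
    have h1 : ¬ ((i : ℕ) < 1 ∧ (j : ℕ) < 1) := by omega
    rw [dif_neg h1, if_neg hi]
  · have : (i : ℕ) ≠ 0 := fun h => hi (Fin.ext h)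
    have h1 : ¬ ((i : ℕ) < 1 ∧ (j : ℕ) < 1) := by omega
    rw [dif_neg h1, if_neg hi]

/-- reindexing -/
def rein (A : Type u) [Ring A] (n : ℕ) :
    Matrix (Fin (n + 1) ⊕ Fin 1) (Fin (n + 1) ⊕ Fin 1) A →* Matrix (Fin (n + 1 + 1)) (Fin (n + 1 + 1)) A where
  toFun X := X.submatrix finSumFinEquiv.symm finSumFinEquiv.symm
  map_one' := Matrix.submatrix_one_equiv _
  map_mul' X Y := (Matrix.submatrix_mul_equiv X Y _ _ _).symm

lemma rein_continuous (A : Type u) [Ring A] [TopologicalSpace A] (n : ℕ) :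
    Continuous (rein A n) :=
  continuous_matrix fun i j => by
    change Continuous fun X : Matrix (Fin (n + 1) ⊕ Fin 1) (Fin (n + 1) ⊕ Fin 1) A =>
      X (finSumFinEquiv.symm i) (finSumFinEquiv.symm j)
    fun_prop

lemma map_diag_eq {A : Type u} [Ring A] (n : ℕ) (a : Aˣ)
    (W : (Matrix (Fin (n+1) ⊕ Fin 1) (Fin (n+1) ⊕ Fin 1) A)ˣ)
    (hW : (W : Matrix (Fin (n+1) ⊕ Fin 1) (Fin (n+1) ⊕ Fin 1) A) =
          Matrix.diagonal (fun i : Fin (n+1) ⊕ Fin 1 => if i = Sum.inl 0 then (a : A) else 1)) :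
    Units.map (pad (Nat.succ_le_succ (Nat.zero_le (n + 1)))) (Units.map oneByOne a) =
        Units.map (rein A n) W := by
  apply Units.ext
  change pad (Nat.succ_le_succ (Nat.zero_le (n + 1))) (oneByOne (a : A)) =
    rein A n (W : Matrix (Fin (n + 1) ⊕ Fin 1) (Fin (n + 1) ⊕ Fin 1) A)
  rw [hW, pad_oneByOne]
  ext i j
  change Matrix.diagonal (fun i : Fin (n + 1 + 1) => if i = 0 then (a : A) else 1) i j =
    Matrix.diagonal (fun i : Fin (n + 1) ⊕ Fin 1 => if i = Sum.inl 0 then (a : A) else 1)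
      (finSumFinEquiv.symm i) (finSumFinEquiv.symm j)
  rw [Matrix.diagonal_apply, Matrix.diagonal_apply]
  have h3 : (i = 0) ↔ finSumFinEquiv.symm i = (Sum.inl 0 : Fin (n + 1) ⊕ Fin 1) := by
    rw [Equiv.symm_apply_eq]; exact Iff.rfl
  have h4 : (i = j) ↔ (finSumFinEquiv.symm i : Fin (n + 1) ⊕ Fin 1) = finSumFinEquiv.symm j := by
    simp
  by_cases hij : i = j
  · subst hij
    rw [if_pos rfl, if_pos rfl]
    by_cases hi : i = 0
    · rw [if_pos hi, if_pos (h3.1 hi)]
    · rw [if_neg hi, if_neg (fun h => hi (h3.2 h))]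
  · have h5 : ¬ (finSumFinEquiv.symm i : Fin (n + 1) ⊕ Fin 1) = finSumFinEquiv.symm j :=
      fun h => hij (h4.2 h)
    simp only [if_neg hij, if_neg h5]

lemma map_pad_eq {A : Type u} [Ring A] (n : ℕ) (U : (Matrix (Fin (n + 1)) (Fin (n + 1)) A)ˣ)
    (V : (Matrix (Fin (n+1) ⊕ Fin 1) (Fin (n+1) ⊕ Fin 1) A)ˣ)
    (hV : (V : Matrix (Fin (n+1) ⊕ Fin 1) (Fin (n+1) ⊕ Fin 1) A) =
          Matrix.fromBlocks (U : Matrix (Fin (n+1)) (Fin (n+1)) A) 0 0 1) :
    Units.map (pad (Nat.succ_le_succ (Nat.le_succ n))) U = Units.map (rein A n) V := by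
  apply Units.ext
  change padFun (n + 1) (n + 1 + 1) (U : Matrix (Fin (n + 1)) (Fin (n + 1)) A) =
    rein A n (V : Matrix (Fin (n + 1) ⊕ Fin 1) (Fin (n + 1) ⊕ Fin 1) A)
  rw [hV]
  change padFun (n + 1) (n + 1 + 1) (U : Matrix (Fin (n + 1)) (Fin (n + 1)) A) =
    (Matrix.fromBlocks (U : Matrix (Fin (n + 1)) (Fin (n + 1)) A) 0 0
      (1 : Matrix (Fin 1) (Fin 1) A)).submatrix finSumFinEquiv.symm finSumFinEquiv.symm
  ext i j
  obtain ⟨i, rfl⟩ := (finSumFinEquiv (m := n + 1) (n := 1)).surjective i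
  obtain ⟨j, rfl⟩ := (finSumFinEquiv (m := n + 1) (n := 1)).surjective j
  rw [Matrix.submatrix_apply, Equiv.symm_apply_apply, Equiv.symm_apply_apply]
  rcases i with i | i <;> rcases j with j | j
  · exact dif_pos ⟨i.isLt, j.isLt⟩
  · have := i.isLt
    simp [padFun, Fin.ext_iff]
    omega
  · have := j.isLt
    simp [padFun, Fin.ext_iff]
    omega
  · rw [Subsingleton.elim i 0, Subsingleton.elim j 0]
    simp [padFun]

/-- The direct limit exists. -/
lemma exists_isKOne (A : Type u) [Ring A] [TopologicalSpace A] [IsTopologicalRing A] :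
    ∃ (K : Type u) (_ : Group K) (j : ∀ n : ℕ, Stage A n →* K), IsKOne A K j := by
  refine ⟨DirectLimit (Stage A) (trans A), inferInstance, fun n =>
    { toFun := fun x => ⟦⟨n, x⟩⟧
      map_one' := (DirectLimit.one_def n).symm
      map_mul' := fun x y => (DirectLimit.mul_def n x y).symm }, ?_, ?_, ?_⟩
  · intro m n h x
    refine Quotient.sound ⟨n, le_refl n, h, ?_⟩
    exact directedSystem A |>.map_self _
  · intro y
    obtain ⟨⟨n, x⟩, rfl⟩ := Quotient.exists_rep y
    exact ⟨n, x, rfl⟩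
  · intro n x hx
    exact (DirectLimit.exists_eq_one (f := trans A) (⟨n, x⟩ : Σ n, Stage A n)).1 hx

end Pool.Agent.Helper77.KOneDefs
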